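import Pool.Agent.MP_977787_an.Mg.Interp

open MeasureTheory Pool.Agent.MP_977787_an

/-- For `n ≥ 1` and `k > 0`, every special `k`-Hadamard operator on `ℝⁿ` has a regular choice of
admissible constants if and only if `k > 1`.  In particular Q1 fails (take `k = 1`). -/
theorem Pool.Agent.Results.MP_977787_an.RegularIff.result (n : ℕ) (_hn : 1 ≤ n) (k : ℝ)
    (hk : 0 < k) :
    AllHaveRegularConstants (volume : Measure (Fin n → ℝ)) k ↔ 1 < k := by
  constructor
  · intro h
    by_contra hk1
    obtain ⟨A, hA, hA'⟩ := exists_not_regular n k hk (not_lt.1 hk1)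
    exact hA' (h.out A hA)
  · intro hk1
    exact ⟨fun A hA => regular_of_one_lt hk1 hA⟩
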